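import Pool.Agent.Helper3.SP.Base

/-!
# A poset for the strong polarized relation at a non-weakly-compact cardinal (definitions)

`A` is a set of order type `κ`, `L` a set of order type `κ⁺`.
-/

namespace Pool.Agent.Helper3.SP

open Cardinal Set

/-- Codes of names of `L`-sequences of subsets of `A`. (`dm = False` everywhere gives leaves.) -/
inductive Ix (A L : Type) : Type
  | mk (fl : L → A → A → Prop) (ln : L → A → A → A) (st : L → A → A → A → Prop)
      (dm : L → A → A → A → Prop) (ch : (l : L) → (b e : A) → {y : A // dm l b e y} → Ix A L)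
      (sS : L → A → A → A → A → Prop) (sK : L → A → A → A → L → Prop) : Ix A L

/-- Raw conditions: `(len, x)` is an initial segment (below `len`) of a subset of `A`, the section
`S_i` of `S` is an approximation of the pseudo-intersection of the sequence coded by `i`, and the
section `K_i` of `K` is the set of the terms of that sequence to which a promise is made. -/
structure RC (A L : Type) : Type where
  len : A
  x : Set A
  S : Set (Ix A L × A)
  K : Set (Ix A L × L)

variable {A L : Type}

/-- the entry number `e` of the name of the set of the conditions that put `b` into the set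
number `l` is present -/
def Ix.fl : Ix A L → L → A → A → Prop
  | .mk fl _ _ _ _ _ _ => fl

/-- the entry number `e` of the name of the set of the conditions that put `b` into the set
number `l` -/
def Ix.ent : Ix A L → L → A → A → RC A L
  | .mk _ ln st _ ch sS sK, l, b, e => ⟨ln l b e, {a | st l b e a},
      {z | ∃ y, z.1 = ch l b e y ∧ sS l b e y.1 z.2},
      {z | ∃ y, z.1 = ch l b e y ∧ sK l b e y.1 z.2}⟩

/-- `j` is used in `i` -/
def Ch : Ix A L → Ix A L → Prop
  | j, .mk _ _ _ _ ch _ _ => ∃ l b e y, j = ch l b e y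

theorem wf_Ch : WellFounded (Ch (A := A) (L := L)) := by
  constructor
  intro i
  induction i with
  | mk fl ln st dm ch sS sK ih =>
    constructor
    rintro j ⟨l, b, e, y, rfl⟩
    exact ih l b e y

/-- the proper descendants of `i` -/
def Des (i : Ix A L) : Set (Ix A L) := {j | Relation.TransGen Ch j i}

theorem wf_Des : WellFounded (fun j i : Ix A L => j ∈ Des i) := wf_Ch.transGen

/-- small raw conditions -/
def Sm (p : RC A L) : Prop := #p.S < #A ∧ #p.K < #A

variable [LinearOrder A]

/-- the order restricted to the indices in `D`, with a given forcing relation -/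
def LeW (D : Set (Ix A L)) (F : ∀ j ∈ D, RC A L → L → A → Prop) (r p : RC A L) : Prop :=
  p.len ≤ r.len ∧ {a | a < p.len ∧ ¬ (a ∈ r.x ↔ a ∈ p.x)}.Finite ∧
    ∀ j (hj : j ∈ D), (∀ b, (j, b) ∈ p.S → (j, b) ∈ r.S) ∧ (∀ l, (j, l) ∈ p.K → (j, l) ∈ r.K) ∧
      ∀ b, (j, b) ∈ r.S → (j, b) ∉ p.S → ∀ l, (j, l) ∈ p.K → F j hj r l b

/-- `r` forces that `b` belongs to the set number `l` of the sequence coded by `i` (it depends
only on the part of `r` on the descendants of `i`) -/
def Frc (i : Ix A L) : RC A L → L → A → Prop :=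
  wf_Des.fix (C := fun _ => RC A L → L → A → Prop) (fun i rec r l b =>
    ∀ t, Sm t → LeW (Des i) rec t r → ∃ t', Sm t' ∧ LeW (Des i) rec t' t ∧
      ∃ e, i.fl l b e ∧ LeW (Des i) rec t' (i.ent l b e)) i

/-- the (coarse) order restricted to the indices in `D` -/
def LeD (D : Set (Ix A L)) (r p : RC A L) : Prop := LeW D (fun j _ => Frc j) r p

/-- the coarse order: the first coordinates are compared modulo finite sets -/
def LeC (r p : RC A L) : Prop := LeD univ r p

/-- the fine order -/
def LeF (r p : RC A L) : Prop := (∀ a < p.len, (a ∈ r.x ↔ a ∈ p.x)) ∧ LeD univ r p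

theorem LeD_iff (D : Set (Ix A L)) (r p : RC A L) : LeD D r p ↔
    p.len ≤ r.len ∧ {a | a < p.len ∧ ¬ (a ∈ r.x ↔ a ∈ p.x)}.Finite ∧
      ∀ j ∈ D, (∀ b, (j, b) ∈ p.S → (j, b) ∈ r.S) ∧ (∀ l, (j, l) ∈ p.K → (j, l) ∈ r.K) ∧
        ∀ b, (j, b) ∈ r.S → (j, b) ∉ p.S → ∀ l, (j, l) ∈ p.K → Frc j r l b := Iff.rfl

theorem Frc_iff (i : Ix A L) (r : RC A L) (l : L) (b : A) : Frc i r l b ↔
    ∀ t, Sm t → LeD (Des i) t r → ∃ t', Sm t' ∧ LeD (Des i) t' t ∧
      ∃ e, i.fl l b e ∧ LeD (Des i) t' (i.ent l b e) := by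
  rw [Frc, wf_Des.fix_eq]
  rfl

/-- The assumptions on `A` and `L`: `A` has the order type of the inaccessible cardinal `κ`, and
`L` has the order type of `κ⁺`. -/
structure Hyp (A L : Type) [LinearOrder A] [LinearOrder L] : Prop where
  wfA : WellFoundedLT A
  wfL : WellFoundedLT L
  reg : (#A).IsRegular
  unc : ℵ₀ < #A
  pow : ∀ c < #A, 2 ^ c < #A
  segA : ∀ m : A, #(Iio m) < #A
  bddA : ∀ s : Set A, #s < #A → ∃ m, ∀ a ∈ s, a < m
  cardL : #L = Order.succ #A
  segL : ∀ m : L, #(Iio m) ≤ #A
  bddL : ∀ s : Set L, #s ≤ #A → ∃ m, ∀ a ∈ s, a < m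

end Pool.Agent.Helper3.SP
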