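import Pool.Agent.Helper96.Fc.Defs
import Pool.Agent.Helper3.SP.Defs

/-!
# The statement in a transitive model, and the properties of the forcing notion
-/

namespace Pool.Agent.Helper3.SP

open Cardinal Set Pool.Agent.Helper96.Fc

/-- The properties of the forcing notion. -/
structure GP (A L P : Type) [LinearOrder A] [LinearOrder L] [PartialOrder P] [OrderTop P] :
    Prop where
  /-- distributivity -/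
  dist : ∀ (I : Type), #I < #A → ∀ (D : I → Set P), (∀ i p, ∃ q ≤ p, q ∈ D i) →
    (∀ i p q, q ≤ p → p ∈ D i → q ∈ D i) → ∀ p, ∃ q ≤ p, ∀ i, q ∈ D i
  /-- chain condition -/
  cc : ∀ s : Set P, (∀ p ∈ s, ∀ q ∈ s, p ≠ q → ¬ ∃ r : P, r ≤ p ∧ r ≤ q) → #s ≤ #A
  /-- the positive relation -/
  pos : ∀ (F : L → A → Set P) (q : P), ∃ r ≤ q, ∃ (An : L → Set P) (Bn : A → Set P),
    (∀ l s t, t ≤ s → s ∈ An l → t ∈ An l) ∧ (∀ b s t, t ≤ s → s ∈ Bn b → t ∈ Bn b) ∧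
    (∀ t ≤ r, ∀ l, ∃ s ≤ t, ∃ l', l < l' ∧ s ∈ An l') ∧
    (∀ t ≤ r, ∀ b, ∃ s ≤ t, ∃ b', b < b' ∧ s ∈ Bn b') ∧
    ((∀ t ≤ r, ∀ l b, t ∈ An l → t ∈ Bn b → FrIn (F l) t b) ∨
      ∀ t ≤ r, ∀ l b, t ∈ An l → t ∈ Bn b → ¬ FrIn (F l) t b)
  /-- failure of weak compactness -/
  wc : ∃ W : A → A → Set P, (∀ a b s t, t ≤ s → s ∈ W a b → t ∈ W a b) ∧
    ∀ H : A → Set P, (∀ b s t, t ≤ s → s ∈ H b → t ∈ H b) →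
    ∀ q, (∀ t ≤ q, ∀ c, ∃ s ≤ t, ∃ b, c < b ∧ s ∈ H b) →
    (∃ r ≤ q, ∃ a b, a < b ∧ r ∈ H a ∧ r ∈ H b ∧ r ∈ W a b) ∧
      ∃ r ≤ q, ∃ a b, a < b ∧ r ∈ H a ∧ r ∈ H b ∧ ∀ s ≤ r, s ∉ W a b

end Pool.Agent.Helper3.SP
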