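import Pool.Agent.Helper3.SP.CC
import Pool.Agent.Helper34.SP.Dir
import Pool.Agent.Helper16.SP.Dist
import Pool.Agent.Helper93.SP.Nice
import Pool.Agent.Helper98.SP.Gen
import Pool.Agent.Helper56.SP.Lab
import Pool.Agent.Helper80.SP.NotWC

/-!
# The positive relation in the extension
-/

namespace Pool.Agent.Helper3.SP

open Cardinal Set

set_option linter.unusedSectionVars false

variable {A L : Type} [LinearOrder A] [LinearOrder L]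

/-- A maximal antichain among the conditions below `q` in a set `D`. -/
theorem exists_antichain {P : Type} [Preorder P] (D : Set P) :
    ∃ Z ⊆ D, (∀ p ∈ Z, ∀ r ∈ Z, p ≠ r → ¬ ∃ s : P, s ≤ p ∧ s ≤ r) ∧
      ∀ p ∈ D, ∃ r ∈ Z, ∃ s : P, s ≤ p ∧ s ≤ r := by
  obtain ⟨Z, hZ⟩ := zorn_subset
    {Z : Set P | Z ⊆ D ∧ ∀ p ∈ Z, ∀ r ∈ Z, p ≠ r → ¬ ∃ s : P, s ≤ p ∧ s ≤ r} (by
      intro c hc hch
      refine ⟨⋃₀ c, ⟨?_, ?_⟩, fun s hs => subset_sUnion_of_mem hs⟩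
      · exact sUnion_subset fun s hs => (hc hs).1
      · rintro p ⟨s, hs, hp⟩ r ⟨t, ht, hr⟩ hpr
        rcases hch.total hs ht with h | h
        · exact (hc ht).2 p (h hp) r hr hpr
        · exact (hc hs).2 p hp r (h hr) hpr)
  refine ⟨Z, hZ.prop.1, hZ.prop.2, fun p hp => ?_⟩
  by_contra hcon
  push Not at hcon
  have hpZ : p ∉ Z := fun h => hcon p h p le_rfl le_rfl
  have h1 : insert p Z ∈
      {Z : Set P | Z ⊆ D ∧ ∀ p ∈ Z, ∀ r ∈ Z, p ≠ r → ¬ ∃ s : P, s ≤ p ∧ s ≤ r} := by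
    refine ⟨insert_subset hp hZ.prop.1, ?_⟩
    rintro a (rfl | ha) b (rfl | hb) hab
    · exact absurd rfl hab
    · rintro ⟨s, h1, h2⟩
      exact hcon b hb s h1 h2
    · rintro ⟨s, h1, h2⟩
      exact hcon a ha s h2 h1
    · exact hZ.prop.2 a ha b hb hab
  exact hpZ (hZ.le_of_ge h1 (subset_insert p Z) (mem_insert p Z))

/-- Bounding by the chain condition. -/
theorem bound (h : Hyp A L) (hcc : ∀ s : Set (PC A L),
      (∀ p ∈ s, ∀ q ∈ s, p ≠ q → ¬ ∃ r : PC A L, r ≤ p ∧ r ≤ q) → #s ≤ #A)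
    {T : Type} (hT : #T ≤ #A) (B : T → L → Set (PC A L))
    (hB : ∀ τ l p q, q ≤ p → p ∈ B τ l → q ∈ B τ l) (q : PC A L)
    (hq : ∀ τ, ∀ r ≤ q, ∃ t ≤ r, ∃ l, ∀ l', l < l' → ∀ s ≤ t, s ∉ B τ l') :
    ∃ β : L, ∀ τ, ∀ s ≤ q, ∀ l', β < l' → s ∉ B τ l' := by
  have key : ∀ τ, ∃ β : L, ∀ s ≤ q, ∀ l', β < l' → s ∉ B τ l' := by
    intro τ
    obtain ⟨Z, hZ1, hZ2, hZ3⟩ := exists_antichain
      {t : PC A L | t ≤ q ∧ ∃ l, ∀ l', l < l' → ∀ s ≤ t, s ∉ B τ l'}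
    have hne : Nonempty L := by
      obtain ⟨_, _, l, _⟩ := hq τ q le_rfl
      exact ⟨l⟩
    choose! f hf using fun t (ht : t ∈ Z) => (hZ1 ht).2
    obtain ⟨β, hβ⟩ := h.bddL (f '' Z) (mk_image_le.trans (hcc Z hZ2))
    refine ⟨β, fun s hs l' hl' hsB => ?_⟩
    obtain ⟨t, ht1, l, ht2⟩ := hq τ s hs
    obtain ⟨z, hz, w, hw1, hw2⟩ := hZ3 t ⟨ht1.trans hs, l, ht2⟩
    exact hf z hz l' ((hβ _ (mem_image_of_mem f hz)).trans hl') w hw2
      (hB τ l' s w (hw1.trans ht1) hsB)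
  choose g hg using key
  obtain ⟨β, hβ⟩ := h.bddL (range g) (mk_range_le.trans hT)
  exact ⟨β, fun τ s hs l' hl' => hg τ s hs l' ((hβ _ (mem_range_self τ)).trans hl')⟩

theorem Hyp.exists_gt (h : Hyp A L) (a : A) : ∃ b, a < b := by
  obtain ⟨m, hm⟩ := h.bddA {a} (by
    rw [mk_singleton]
    exact one_lt_aleph0.trans h.unc)
  exact ⟨m, hm a rfl⟩

theorem InI_mono {U : PF A L → (A → Set (PF A L)) → Prop} {F : L → A → Set (PC A L)} {i : Bool}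
    {m : A} {u : Set A} {l : L} {p q : PC A L} (hqp : q ≤ p) (hp : p ∈ InI U F i m u l) :
    q ∈ InI U F i m u l := by
  obtain ⟨r, h1, h2⟩ := hp
  exact ⟨r, hqp.trans h1, h2⟩

theorem FrIn_mono {P : Type} [Preorder P] {a : A → Set P} {p q : P} {b : A} (hqp : q ≤ p)
    (hp : FrIn a p b) : FrIn a q b := fun r hr => hp r (hr.trans hqp)

theorem Col_mono {F : L → A → Set (PC A L)} {i : Bool} {l : L} {b : A} {p q : PC A L}
    (hqp : q ≤ p) (hp : p ∈ Col F i l b) : q ∈ Col F i l b := by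
  cases i with
  | true => exact FrIn_mono hqp hp
  | false => exact fun r hr => hp r (hr.trans hqp)

/-- the colour sets are regular open -/
theorem Col_dense {F : L → A → Set (PC A L)} {i : Bool} {l : L} {b : A} {p : PC A L}
    (hp : ∀ q ≤ p, ∃ r ≤ q, r ∈ Col F i l b) : p ∈ Col F i l b := by
  cases i with
  | true =>
    intro q hq
    obtain ⟨r, hr, h1⟩ := hp q hq
    obtain ⟨s, hs, h2⟩ := h1 r le_rfl
    exact ⟨s, hs.trans hr, h2⟩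
  | false =>
    intro q hq hF
    obtain ⟨r, hr, h1⟩ := hp q hq
    exact h1 r le_rfl (FrIn_mono hr hF)

/-- **The positive relation is forced.** -/
theorem pos (h : Hyp A L) (hM : MeasIn A (PF A L)) (F : L → A → Set (PC A L)) (q : PC A L) :
    ∃ r ≤ q, ∃ (i : Bool) (An : L → Set (PC A L)) (Bn : A → Set (PC A L)),
      (∀ l s t, t ≤ s → s ∈ An l → t ∈ An l) ∧ (∀ b s t, t ≤ s → s ∈ Bn b → t ∈ Bn b) ∧
      (∀ t ≤ r, ∀ l, ∃ s ≤ t, ∃ l', l < l' ∧ s ∈ An l') ∧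
      (∀ t ≤ r, ∀ b, ∃ s ≤ t, ∃ b', b < b' ∧ s ∈ Bn b') ∧
      ∀ t ≤ r, ∀ l b, t ∈ An l → t ∈ Bn b → t ∈ Col F i l b := by
  obtain ⟨U, hU1, hU2, hU3, hU4, hU5, hU6⟩ := hM
  have hU : IsU _ U := ⟨hU1, hU2, hU3, hU4, hU5, hU6⟩
  have hdist : ∀ (I : Type), #I < #A → ∀ (D : I → Set (PC A L)),
      (∀ i p, ∃ q ≤ p, q ∈ D i) → (∀ i p q, q ≤ p → p ∈ D i → q ∈ D i) →
        ∀ p, ∃ q ≤ p, ∀ i, q ∈ D i := fun I hI D hD hO p => dist h (dirClosed h) hI D hD hO p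
  -- step 1
  have step1 : ∃ r ≤ q, ∃ i m u, ∀ t ≤ r, ∀ l, ∃ s ≤ t, ∃ l', l < l' ∧ s ∈ InI U F i m u l' := by
    by_contra hcon
    push Not at hcon
    obtain ⟨β, hβ⟩ := bound h (cc h) (T := Bool × Σ m : A, Set (Iio m)) (by
        rw [mk_prod, lift_id, lift_id]
        refine (mul_le_mul' (b := #A) (d := #A) ?_ (mk_stem' h)).trans (mul_eq_self h.unc.le).le
        exact (mk_le_aleph0 (α := Bool)).trans h.unc.le)
      (fun τ => InI U F τ.1 τ.2.1 {a | ∃ ha : a < τ.2.1, (⟨a, ha⟩ : Iio τ.2.1) ∈ τ.2.2})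
      (fun τ l p q hqp hp => InI_mono hqp hp) q (by
        intro τ r hr
        obtain ⟨t, ht, l, hl⟩ := hcon r hr τ.1 τ.2.1
          {a | ∃ ha : a < τ.2.1, (⟨a, ha⟩ : Iio τ.2.1) ∈ τ.2.2}
        exact ⟨t, ht, l, fun l' hl' s hs => hl s hs l' hl'⟩)
    have hcL : ∃ l, β < l := by
      obtain ⟨m, hm⟩ := h.bddL {β} (by
        rw [mk_singleton]
        exact (one_lt_aleph0.trans h.unc).le)
      exact ⟨m, hm β rfl⟩
    obtain ⟨l, hl⟩ := hcL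
    obtain ⟨r, hr, i, m, u, hI⟩ := InI_dense hU F l q
    refine hβ (i, ⟨m, {a | a.1 ∈ u}⟩) r hr l hl ?_
    obtain ⟨p, h1, h2, h3, h4⟩ := hI
    refine ⟨p, h1, h2, fun a ha => ?_, h4⟩
    rw [h3 a ha]
    constructor
    · exact fun h5 => ⟨ha, h5⟩
    · rintro ⟨_, h5⟩
      exact h5
  obtain ⟨r₁, hr₁, i, m, u, hI⟩ := step1
  -- step 2
  obtain ⟨j, hj⟩ := exists_ix h (cc h)
    (fun l b => {s : PC A L | ∀ t ≤ s, t ∈ InI U F i m u l → t ∈ Col F i l b})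
    (fun l b p q hqp hp t ht => hp t (ht.trans hqp))
  have hunb := Bn_unb h j (by
    intro q K c hK
    obtain ⟨r, hr, b, hb, h1⟩ := InI_ip h hdist hU F i m u q K hK c
    exact ⟨r, hr, b, hb, fun l hl => (hj r l b).2
      fun s hs => ⟨s, le_rfl, r, h1 l hl, hs⟩⟩)
  -- step 3
  let Ag : A → L → Set (PC A L) := fun γ l => {s | s ∈ InI U F i m u l ∧
    ∀ t ≤ s, ∀ b, γ ≤ b → (j, b) ∈ t.1.S → Frc j t.1 l b}
  have hAg : ∀ γ l p q, q ≤ p → p ∈ Ag γ l → q ∈ Ag γ l := fun γ l p q hqp hp =>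
    ⟨InI_mono hqp hp.1, fun t ht => hp.2 t (ht.trans hqp)⟩
  have step3 : ∀ l, ∀ s ∈ InI U F i m u l, ∃ t ≤ s, ∃ γ, t ∈ Ag γ l := by
    intro l s hs
    obtain ⟨t, ht, h1, h2⟩ := Bn_promise h j l s
    obtain ⟨γ, hγ⟩ := h.bddA {b | (j, b) ∈ t.1.S} (by
      refine lt_of_le_of_lt ?_ t.2.1
      exact mk_le_of_injective (f := fun b : {b | (j, b) ∈ t.1.S} => (⟨(j, b.1), b.2⟩ : t.1.S))
        fun b b' hbb => Subtype.ext (congrArg (fun z => z.1.2) hbb))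
    refine ⟨t, ht, γ, InI_mono ht hs, fun t' ht' b hb hbt => ?_⟩
    exact Bn_sub j h1 ht' hbt fun h3 => absurd (hγ b h3) (not_lt.2 hb)
  -- step 4
  have step4 : ∃ r ≤ r₁, ∃ γ, ∀ t ≤ r, ∀ l, ∃ s ≤ t, ∃ l', l < l' ∧ s ∈ Ag γ l' := by
    by_contra hcon
    push Not at hcon
    obtain ⟨β, hβ⟩ := bound h (cc h) (T := A) le_rfl Ag hAg r₁ (by
      intro γ r hr
      obtain ⟨t, ht, l, hl⟩ := hcon r hr γ
      exact ⟨t, ht, l, fun l' hl' s hs => hl s hs l' hl'⟩)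
    obtain ⟨s, hs, l, hl, h1⟩ := hI r₁ le_rfl β
    obtain ⟨t, ht, γ, h2⟩ := step3 l s h1
    exact hβ γ t (ht.trans hs) l hl h2
  obtain ⟨r, hr, γ, hγ⟩ := step4
  refine ⟨r, hr.trans hr₁, i, Ag γ, fun b => {s | γ ≤ b ∧ (j, b) ∈ s.1.S}, hAg γ,
    fun b s t hts hs => ⟨hs.1, (hts.2.2 j trivial).1 b hs.2⟩, hγ, ?_, ?_⟩
  · intro t _ b
    obtain ⟨s, hs, b', hb', h1⟩ := hunb t (max b γ)
    exact ⟨s, hs, b', (le_max_left _ _).trans_lt hb', ((le_max_right _ _).trans_lt hb').le, h1⟩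
  · intro t _ l b htA htB
    have h1 : Frc j t.1 l b := htA.2 t le_rfl b htB.1 htB.2
    rw [hj] at h1
    apply Col_dense
    intro s hs
    obtain ⟨w, hw, c, hc, hwc⟩ := h1 s hs
    exact ⟨w, hw, hc w hwc (InI_mono (hw.trans hs) htA.1)⟩

end Pool.Agent.Helper3.SP
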