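import Pool.Agent.Helper3.SP.MDefs
import Pool.Agent.Helper3.SP.Pos

/-!
# The partial order of the coarse classes of conditions
-/

namespace Pool.Agent.Helper3.SP

open Cardinal Set

set_option linter.unusedSectionVars false

variable {A L : Type} [LinearOrder A] [LinearOrder L]

/-- the coarse poset -/
abbrev PA (A L : Type) [LinearOrder A] : Type := Antisymmetrization (PC A L) (· ≤ ·)

/-- class of a condition -/
def cl (p : PC A L) : PA A L := toAntisymmetrization _ p

/-- representative of a class -/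
noncomputable def rp (x : PA A L) : PC A L := ofAntisymmetrization _ x

theorem cl_rp (x : PA A L) : cl (rp x) = x := toAntisymmetrization_ofAntisymmetrization _ x

theorem cl_le {p q : PC A L} : cl p ≤ cl q ↔ p ≤ q := Iff.rfl

theorem rp_le {x y : PA A L} : rp x ≤ rp y ↔ x ≤ y := by
  rw [← cl_le, cl_rp, cl_rp]

theorem rp_cl_le (p : PC A L) : rp (cl p) ≤ p := by
  rw [← cl_le, cl_rp]

theorem le_rp_cl (p : PC A L) : p ≤ rp (cl p) := by
  rw [← cl_le, cl_rp]

theorem le_cl {x : PA A L} {p : PC A L} : x ≤ cl p ↔ rp x ≤ p := by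
  rw [← cl_le, cl_rp]

theorem cl_le' {x : PA A L} {p : PC A L} : cl p ≤ x ↔ p ≤ rp x := by
  rw [← cl_le, cl_rp]

theorem Hyp.nonempty (h : Hyp A L) : Nonempty A := by
  rw [← mk_ne_zero_iff]
  exact (aleph0_pos.trans h.unc).ne'

/-- the largest class -/
noncomputable def otop (h : Hyp A L) : OrderTop (PA A L) where
  top := by
    haveI := h.wfA
    haveI := h.nonempty
    exact cl ⟨⟨wellFounded_lt.min (univ : Set A) univ_nonempty, ∅, ∅, ∅⟩, by
      constructor <;> simp only [mk_eq_zero] <;> exact aleph0_pos.trans h.unc⟩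
  le_top x := by
    rw [le_cl]
    haveI := h.wfA
    haveI := h.nonempty
    refine ⟨?_, ?_, fun j _ => ⟨fun b hb => hb.elim, fun l hl => hl.elim,
      fun b _ _ l hl => hl.elim⟩⟩
    · exact not_lt.1 (wellFounded_lt.not_lt_min (univ : Set A) (mem_univ _))
    · convert Set.finite_empty (α := A)
      ext a
      simp only [mem_ofPred_eq, mem_empty_iff_false, iff_false, not_and, not_not]
      intro ha
      exact absurd ha (wellFounded_lt.not_lt_min (univ : Set A) (mem_univ _))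

theorem FrIn_PA {F : A → Set (PA A L)} {x : PA A L} {b : A} :
    FrIn F x b ↔ FrIn (fun b => {p : PC A L | cl p ∈ F b}) (rp x) b := by
  constructor
  · intro h q hq
    obtain ⟨y, hy, c, hc, hyc⟩ := h (cl q) (cl_le'.2 hq)
    refine ⟨rp y, le_cl.1 hy, rp c, ?_, rp_le.2 hyc⟩
    change cl (rp c) ∈ F b
    rwa [cl_rp]
  · intro h y hy
    obtain ⟨r, hr, c, hc, hrc⟩ := h (rp y) (rp_le.2 hy)
    exact ⟨cl r, cl_le'.2 hr, cl c, hc, cl_le.2 hrc⟩

/-- **The properties of the forcing notion.** -/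
theorem gp (h : Hyp A L) (hM : MeasIn A (PF A L)) : @GP A L (PA A L) _ _ _ (otop h) := by
  letI := otop h
  refine ⟨?_, ?_, ?_, ?_⟩
  · intro I hI D hD hO x
    obtain ⟨q, hq, h1⟩ := dist h (dirClosed h) hI (fun i => {p : PC A L | cl p ∈ D i})
      (fun i p => by
        obtain ⟨y, hy, h2⟩ := hD i (cl p)
        refine ⟨rp y, le_cl.1 hy, ?_⟩
        change cl (rp y) ∈ D i
        rwa [cl_rp])
      (fun i p q hqp hp => hO i _ _ (cl_le.2 hqp) hp) (rp x)
    exact ⟨cl q, cl_le'.2 hq, h1⟩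
  · intro s hs
    have hinj : Function.Injective (rp : PA A L → PC A L) := fun x y hxy => by
      rw [← cl_rp x, ← cl_rp y, hxy]
    rw [← mk_image_eq (s := s) hinj]
    apply cc h
    rintro _ ⟨x, hx, rfl⟩ _ ⟨y, hy, rfl⟩ hxy ⟨r, h1, h2⟩
    exact hs x hx y hy (fun h3 => hxy (congrArg rp h3)) ⟨cl r, cl_le'.2 h1, cl_le'.2 h2⟩
  · intro F x
    obtain ⟨r, hr, i, An, Bn, h1, h2, h3, h4, h5⟩ :=
      pos h hM (fun l b => {p : PC A L | cl p ∈ F l b}) (rp x)
    refine ⟨cl r, cl_le'.2 hr, fun l => {y | rp y ∈ An l}, fun b => {y | rp y ∈ Bn b},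
      fun l s t hts hs => h1 l _ _ (rp_le.2 hts) hs, fun b s t hts hs => h2 b _ _ (rp_le.2 hts) hs,
      ?_, ?_, ?_⟩
    · intro t ht l
      obtain ⟨s, hs, l', hl', h6⟩ := h3 (rp t) (le_cl.1 ht) l
      exact ⟨cl s, cl_le'.2 hs, l', hl', h1 l' _ _ (rp_cl_le s) h6⟩
    · intro t ht b
      obtain ⟨s, hs, b', hb', h6⟩ := h4 (rp t) (le_cl.1 ht) b
      exact ⟨cl s, cl_le'.2 hs, b', hb', h2 b' _ _ (rp_cl_le s) h6⟩
    · cases i with
      | true =>
        left
        intro t ht l b hA hB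
        rw [FrIn_PA]
        exact h5 (rp t) (le_cl.1 ht) l b hA hB
      | false =>
        right
        intro t ht l b hA hB
        rw [FrIn_PA]
        exact h5 (rp t) (le_cl.1 ht) l b hA hB (rp t) le_rfl
  · have hrep : ∀ {p q : PC A L} {b : A}, q ≤ p → b ≤ p.1.len → rep b q.1.x = rep b p.1.x := by
      intro p q b hqp hb
      apply rep_congr
      exact hqp.2.1.subset fun a ha => ⟨ha.1.trans_le hb, ha.2⟩
    refine ⟨fun a b => {x | b ≤ (rp x).1.len ∧ a ∈ rep b (rp x).1.x}, ?_, ?_⟩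
    · intro a b s t hts hs
      have h1 : rp t ≤ rp s := rp_le.2 hts
      refine ⟨hs.1.trans h1.1, ?_⟩
      rw [hrep h1 hs.1]
      exact hs.2
    · intro H hH q hq
      have h1 := notWC h (dirClosed h) (fun b => {p : PC A L | cl p ∈ H b})
        (fun b s t hts hs => hH b _ _ (cl_le.2 hts) hs) (rp q) (by
          intro t ht c
          obtain ⟨s, hs, b, hb, h2⟩ := hq (cl t) (cl_le'.2 ht) c
          refine ⟨rp s, le_cl.1 hs, b, hb, ?_⟩
          change cl (rp s) ∈ H b
          rwa [cl_rp])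
      constructor
      · obtain ⟨r, hr, a, b, hab, hb, h2, h3, h4⟩ := h1.1
        refine ⟨cl r, cl_le'.2 hr, a, b, hab, h2, h3, ?_, ?_⟩
        · exact hb.trans (rp_cl_le r).1
        · rw [hrep (rp_cl_le r) hb]
          exact h4
      · obtain ⟨r, hr, a, b, hab, hb, h2, h3, h4⟩ := h1.2
        refine ⟨cl r, cl_le'.2 hr, a, b, hab, h2, h3, ?_⟩
        rintro s hs ⟨-, h5⟩
        rw [hrep (le_cl.1 hs) hb] at h5
        exact h4 h5

end Pool.Agent.Helper3.SP
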