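import Pool.Agent.Helper96.Fc.Defs

/-!
# Measurability in a forcing extension, and the strong polarized relation in a transitive model
-/

namespace Pool.Agent.Helper3.SP

open Cardinal Pool.Agent.Helper96.Fc

/-! ### Forcing -/

/-- `P` is `<κ`-directed closed. -/
def DirClosed (κ : Cardinal.{0}) (P : Type) [Preorder P] : Prop :=
  ∀ S : Set P, #S < κ → (∀ p ∈ S, ∀ q ∈ S, ∃ r ∈ S, r ≤ p ∧ r ≤ q) → ∃ r, ∀ p ∈ S, r ≤ p

/-- For a name `a` of a subset of `A`, the condition `p` forces `b ∈ a`. -/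
def FrIn {A P : Type} [Preorder P] (a : A → Set P) (p : P) (b : A) : Prop :=
  ∀ q ≤ p, ∃ r ≤ q, ∃ c ∈ a b, r ≤ c

/-- In the extension by `P` there is a nonprincipal `#A`-complete ultrafilter on `A`;
`U p a` says that `p` forces that the set with the name `a` belongs to the ultrafilter. -/
def MeasIn (A P : Type) [Preorder P] : Prop :=
  ∃ U : P → (A → Set P) → Prop,
    (∀ p q a, U p a → q ≤ p → U q a) ∧
    (∀ p a, (∀ q ≤ p, ∃ r ≤ q, U r a) → U p a) ∧
    (∀ p a a', U p a → (∀ q ≤ p, ∀ b, FrIn a q b → FrIn a' q b) → U p a') ∧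
    (∀ p a, ∃ q ≤ p, U q a ∨ U q (fun b => {r | ∀ s ≤ r, ¬ FrIn a s b})) ∧
    (∀ (p : P) (I : Type) (a : I → A → Set P), #I < #A → (∀ i, U p (a i)) →
      U p (fun b => {r | ∀ i, FrIn (a i) r b})) ∧
    ∀ p b₀, ¬ U p (fun b => {_r | b = b₀})

/-! ### The statement in a model `N` -/

/-- `f` is a function: it contains for every `x` at most one ordered pair `⟨x, y⟩` -/
def Func (f : ZFSet.{0}) : Prop :=
  ∀ x y z, ZFSet.pair x y ∈ f → ZFSet.pair x z ∈ f → y = z

/-- In `N`, `K` is a regular cardinal: it is a cardinal, and every function of `N` is bounded in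
`K` on every `β < K`. -/
def RegIn (N : Set ZFSet.{0}) (K : ZFSet.{0}) : Prop :=
  IsCard N K ∧ ∀ f ∈ N, Func f → ∀ β ∈ K, ∃ γ ∈ K, ∀ x ∈ β, ∀ y ∈ K, ZFSet.pair x y ∈ f → y ∈ γ

/-- In `N`, `H` is a subset of the cardinal `K` of cardinality `K`: it is not (empty or) an image
of a smaller ordinal. -/
def Big (N : Set ZFSet.{0}) (K H : ZFSet.{0}) : Prop :=
  H ∈ N ∧ H ⊆ K ∧ ∀ β ∈ K, ¬ Onto N β H

/-- In `N`, the cardinal `K` is weakly compact: it is uncountable, and every 2-colouring of its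
two-element subsets has a homogeneous set of cardinality `K`. A colouring is given by the set `W`
of the pairs of the first colour. -/
def WeaklyCompactIn (N : Set ZFSet.{0}) (K : ZFSet.{0}) : Prop :=
  Ordinal.toZFSet Ordinal.omega0 ∈ K ∧ ∀ W ∈ N, ∃ H, Big N K H ∧
    ((∀ a ∈ H, ∀ b ∈ H, a ≠ b → ({a, b} : ZFSet.{0}) ∈ W) ∨
      ∀ a ∈ H, ∀ b ∈ H, a ≠ b → ({a, b} : ZFSet.{0}) ∉ W)

/-- In `N`, the strong polarized relation `(M, K) → (M, K)^{1,1}_2`. A colouring of `M × K` is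
given by the set `C` of the pairs of the first colour. -/
def StrongPol (N : Set ZFSet.{0}) (K M : ZFSet.{0}) : Prop :=
  ∀ C ∈ N, ∃ S B, Big N M S ∧ Big N K B ∧
    ((∀ a ∈ S, ∀ b ∈ B, ZFSet.pair a b ∈ C) ∨ ∀ a ∈ S, ∀ b ∈ B, ZFSet.pair a b ∉ C)

end Pool.Agent.Helper3.SP
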