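import Pool.Agent.Helper3.SP.Ord
import Pool.Agent.Helper96.Fc.Root
import Pool.Agent.Helper96.Fc.Card

/-!
# The chain condition of the coarse poset
-/

namespace Pool.Agent.Helper3.SP

open Cardinal Set

set_option linter.unusedSectionVars false

variable {A L : Type} [LinearOrder A] [LinearOrder L]

/-- the support of a condition -/
def supp (p : PC A L) : Set (Ix A L) := Prod.fst '' p.1.S ∪ Prod.fst '' p.1.K

theorem mk_supp_lt (h : Hyp A L) (p : PC A L) : #(supp p) < #A := by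
  refine (mk_union_le _ _).trans_lt (add_lt_of_lt h.unc.le ?_ ?_)
  · exact mk_image_le.trans_lt p.2.1
  · exact mk_image_le.trans_lt p.2.2

theorem Hyp.cls (h : Hyp A L) : Pool.Agent.Helper96.Fc.Cls #A (Order.succ #A) :=
  { rτ := h.reg
    rθ := isRegular_succ h.unc.le
    lt := Order.lt_succ _
    pow := by
      intro a ha b hb
      refine Order.lt_succ_iff.2 ?_
      refine (power_le_power_right (Order.lt_succ_iff.1 ha)).trans ?_
      refine Pool.Agent.Helper96.Fc.regular_pow_le h.reg hb ?_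
      intro c hc
      refine (power_le_power_right (cantor c).le).trans ?_
      rw [← power_mul]
      exact (h.pow _ (mul_lt_of_lt h.unc.le hc hb)).le }

theorem mk_stem' (h : Hyp A L) : #(Σ m : A, Set (Iio m)) ≤ #A := by
  rw [mk_sigma]
  refine (sum_le_sum _ (fun _ => #A) fun m => ?_).trans ?_
  · rw [mk_set]
    exact (h.pow _ (h.segA m)).le
  · rw [sum_const', mul_eq_self h.unc.le]

theorem mk_small (h : Hyp A L) : #{t : Set A // #t < #A} ≤ #A := by
  have h1 := h.cls.small_subsets (S := (univ : Set A)) (by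
    rw [mk_univ]
    exact Order.lt_succ _)
  rw [Order.lt_succ_iff] at h1
  refine le_trans (mk_le_of_injective (f := fun t => ⟨t.1, subset_univ _, t.2⟩) ?_) h1
  intro t t' htt
  simp only [Subtype.mk.injEq] at htt
  exact Subtype.ext htt

theorem mk_section_lt (p : PC A L) (i : Ix A L) : #{b | (i, b) ∈ p.1.S} < #A := by
  refine lt_of_le_of_lt ?_ p.2.1
  exact mk_le_of_injective (f := fun b : {b | (i, b) ∈ p.1.S} => (⟨(i, b.1), b.2⟩ : p.1.S))
    fun b b' hbb => Subtype.ext (congrArg (fun z => z.1.2) hbb)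

/-- two conditions with the same first coordinates and the same sections at the common indices are
compatible -/
theorem compat (h : Hyp A L) {p q : PC A L} (h1 : p.1.len = q.1.len)
    (h2 : ∀ a < p.1.len, (a ∈ p.1.x ↔ a ∈ q.1.x))
    (h3 : ∀ i ∈ supp p, i ∈ supp q → ∀ b, (i, b) ∈ p.1.S ↔ (i, b) ∈ q.1.S) :
    ∃ r : PC A L, r ≤ p ∧ r ≤ q := by
  have hsm : Sm (⟨p.1.len, p.1.x, p.1.S ∪ q.1.S, p.1.K ∪ q.1.K⟩ : RC A L) :=
    ⟨(mk_union_le _ _).trans_lt (add_lt_of_lt h.unc.le p.2.1 q.2.1),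
      (mk_union_le _ _).trans_lt (add_lt_of_lt h.unc.le p.2.2 q.2.2)⟩
  refine ⟨⟨_, hsm⟩, ⟨le_rfl, fin_diff_refl p.1, fun j _ => ⟨fun b hb => Or.inl hb,
    fun l hl => Or.inl hl, fun b hb hb' l hl => ?_⟩⟩, ⟨h1.symm.le, ?_, fun j _ =>
      ⟨fun b hb => Or.inr hb, fun l hl => Or.inr hl, fun b hb hb' l hl => ?_⟩⟩⟩
  · exfalso
    rcases hb with hb | hb
    · exact hb' hb
    · exact hb' ((h3 j (Or.inr ⟨_, hl, rfl⟩) (Or.inl ⟨_, hb, rfl⟩) b).2 hb)
  · convert Set.finite_empty (α := A)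
    ext a
    simp only [mem_ofPred_eq, mem_empty_iff_false, iff_false, not_and, not_not]
    intro ha
    exact h2 a (h1 ▸ ha)
  · exfalso
    rcases hb with hb | hb
    · exact hb' ((h3 j (Or.inl ⟨_, hb, rfl⟩) (Or.inr ⟨_, hl, rfl⟩) b).1 hb)
    · exact hb' hb

/-- **The chain condition.** -/
theorem cc (h : Hyp A L) (s : Set (PC A L))
    (hs : ∀ p ∈ s, ∀ q ∈ s, p ≠ q → ¬ ∃ r : PC A L, r ≤ p ∧ r ≤ q) : #s ≤ #A := by
  by_contra hcon
  rw [not_le] at hcon
  have h0 : #(Order.succ #A).ord.ToType ≤ #s := by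
    rw [mk_ord_toType]
    exact Order.succ_le_iff.2 hcon
  obtain ⟨f⟩ := (Cardinal.le_def _ _).1 h0
  let g : PC A L → Σ m : A, Set (Iio m) := fun p => ⟨p.1.len, {a | a.1 ∈ p.1.x}⟩
  obtain ⟨R, c, e, hR, he, h1, h2⟩ := h.cls.thin (fun ξ => supp (f ξ).1)
    (fun ξ => mk_supp_lt h _) (fun ξ => g (f ξ).1) (Order.lt_succ_iff.2 (mk_stem' h))
    (fun ξ => supp (f ξ).1) (fun ξ => (mk_supp_lt h _).trans (Order.lt_succ _))
  have hfun : #(R → {t : Set A // #t < #A}) < #(Order.succ #A).ord.ToType := by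
    rw [mk_ord_toType, ← power_def]
    exact (power_le_power_right (mk_small h)).trans_lt (h.cls.pow _ (Order.lt_succ _) _ hR)
  have hninj : ¬ Function.Injective (fun k : (Order.succ #A).ord.ToType => fun i : R =>
      (⟨{b | (i.1, b) ∈ (f (e k)).1.1.S}, mk_section_lt _ _⟩ : {t : Set A // #t < #A})) :=
    fun hinj => absurd (mk_le_of_injective hinj) (not_le.2 hfun)
  rw [Function.Injective] at hninj
  push Not at hninj
  obtain ⟨j, k, hjk, hne⟩ := hninj
  have key : supp (f (e j)).1 ∩ supp (f (e k)).1 ⊆ R := by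
    rcases lt_or_gt_of_ne hne with h3 | h3
    · rintro β ⟨h4, h5⟩
      exact h2 j k h3 ⟨h5, h4⟩
    · rintro β ⟨h4, h5⟩
      exact h2 k j h3 ⟨h4, h5⟩
  have hg : g (f (e j)).1 = g (f (e k)).1 := (h1 j).1.trans (h1 k).1.symm
  have hlen : (f (e j)).1.1.len = (f (e k)).1.1.len := congrArg Sigma.fst hg
  have hx : ∀ a < (f (e j)).1.1.len, (a ∈ (f (e j)).1.1.x ↔ a ∈ (f (e k)).1.1.x) := by
    have key2 : ∀ (m m' : A) (u : Set (Iio m)) (u' : Set (Iio m')),
        (⟨m, u⟩ : Σ m : A, Set (Iio m)) = ⟨m', u'⟩ → ∀ a (ha : a < m) (ha' : a < m'),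
          ((⟨a, ha⟩ : Iio m) ∈ u ↔ (⟨a, ha'⟩ : Iio m') ∈ u') := by
      intro m m' u u' huu a ha ha'
      cases huu
      exact Iff.rfl
    intro a ha
    exact key2 _ _ _ _ hg a ha (hlen ▸ ha)
  have hne' : (f (e j)).1 ≠ (f (e k)).1 := by
    intro h3
    exact hne (he.injective (f.injective (Subtype.ext h3)))
  refine hs _ (f (e j)).2 _ (f (e k)).2 hne' (compat h hlen hx ?_)
  intro i hi hi' b
  have h4 := congrFun hjk ⟨i, key ⟨hi, hi'⟩⟩
  have h5 := congrArg Subtype.val h4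
  exact Set.ext_iff.1 h5 b

end Pool.Agent.Helper3.SP
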