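import Pool.Agent.Helper3.SP.Ord

/-!
# Further definitions
-/

namespace Pool.Agent.Helper3.SP

open Cardinal Set

variable {A L : Type} [LinearOrder A]

/-- the conditions that force the colour of `(l, b)` to be `i` -/
def Col (F : L → A → Set (PC A L)) : Bool → L → A → Set (PC A L)
  | true => fun l b => {p | FrIn (F l) p b}
  | false => fun l b => {p | ∀ q ≤ p, ¬ FrIn (F l) q b}

/-- the conditions that put `l` into the set `I_{i, m, u}` -/
def InI (U : PF A L → (A → Set (PF A L)) → Prop) (F : L → A → Set (PC A L)) (i : Bool) (m : A)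
    (u : Set A) (l : L) : Set (PC A L) :=
  {q | ∃ p : PC A L, q ≤ p ∧ p.1.len = m ∧ (∀ a < m, (a ∈ p.1.x ↔ a ∈ u)) ∧
    U (⟨p.1, p.2⟩ : PF A L) (fun b => {r : PF A L | (⟨r.1, r.2⟩ : PC A L) ∈ Col F i l b})}

/-- the assumptions on `U` in `MeasIn` -/
structure IsU (P : Type) [Preorder P] (U : P → (A → Set P) → Prop) : Prop where
  mono : ∀ p q a, U p a → q ≤ p → U q a
  dense : ∀ p a, (∀ q ≤ p, ∃ r ≤ q, U r a) → U p a
  up : ∀ p a a', U p a → (∀ q ≤ p, ∀ b, FrIn a q b → FrIn a' q b) → U p a'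
  ultra : ∀ p a, ∃ q ≤ p, U q a ∨ U q (fun b => {r | ∀ s ≤ r, ¬ FrIn a s b})
  inter : ∀ (p : P) (I : Type) (a : I → A → Set P), #I < #A → (∀ i, U p (a i)) →
      U p (fun b => {r | ∀ i, FrIn (a i) r b})
  nonpr : ∀ p b₀, ¬ U p (fun b => {_r | b = b₀})

/-- `x` and `y` are equal below `m` up to a finite set -/
def Eqf (m : A) (x y : Set A) : Prop := {a | a < m ∧ ¬ (a ∈ x ↔ a ∈ y)}.Finite

/-- canonical representative of the class of `x` -/
noncomputable def rep (m : A) (x : Set A) : Set A :=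
  Classical.epsilon (fun y => Eqf m x y)

end Pool.Agent.Helper3.SP
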