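import Pool.Agent.Helper3.SP.Asm
import Pool.Agent.Helper27.SPT.Transfer
import Pool.Agent.Helper42.SP.HypTT

/-!
# The strong polarized relation at the successor of a cardinal that is not weakly compact

We prove the negated form of Q1: relative to a Laver-indestructible cardinal it is consistent with
ZFC that the strong polarized relation `(κ⁺, κ) → (κ⁺, κ)^{1,1}_2` holds for an uncountable regular
cardinal `κ` that is not weakly compact.
-/

namespace Pool.Agent.Results.MP_c625b5_lc.LaverIndestructible

open Cardinal Pool.Agent.Helper96.Fc Pool.Agent.Helper3.SP

/-- `κ` is a measurable cardinal whose measurability is preserved by every `<κ`-directed closed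
forcing: after forcing with such a `P` there is a nonprincipal `κ`-complete ultrafilter on `κ`.
By a theorem of Laver such a `κ` exists in a forcing extension of a model with a supercompact
cardinal. -/
def Indestructible (κ : Cardinal.{0}) : Prop :=
  ∀ (P : Type) [Preorder P], DirClosed κ P → MeasIn κ.ord.ToType P

/-- **Main theorem.** If there is an indestructible inaccessible cardinal `κ` then there is a
countable transitive model `N` of `ZFC` with an uncountable regular cardinal `K` of `N` that is not
weakly compact in `N`, whose successor in `N` is `M`, such that the strong polarized relation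
`(M, K) → (M, K)^{1,1}_2` holds in `N`. -/
theorem result (κ : Cardinal.{0}) (hκ : ℵ₀ < κ) (hreg : κ.IsRegular)
    (hlim : ∀ c < κ, 2 ^ c < κ) (h : Indestructible κ) :
    ∃ (N : Set ZFSet.{0}) (K M : ZFSet.{0}), N.Countable ∧ IsZFC N ∧ RegIn N K ∧
      Ordinal.toZFSet Ordinal.omega0 ∈ K ∧ NextCard N K M ∧ ¬ WeaklyCompactIn N K ∧
      StrongPol N K M := by
  have h1 := hyp_toType κ hκ hreg hlim
  have h2 : #κ.ord.ToType = κ := by simp
  have h3 : MeasIn κ.ord.ToType (PF κ.ord.ToType (Order.succ κ).ord.ToType) := by
    apply h
    have h4 := dirClosed h1
    rwa [h2] at h4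
  let _ := otop h1
  exact transfer κ hκ hreg (gp h1 h3)

end Pool.Agent.Results.MP_c625b5_lc.LaverIndestructible
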