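import Pool.Agent.Helper3.SP.Defs

/-!
# Basic properties of the orders
-/

namespace Pool.Agent.Helper3.SP

open Cardinal Set

variable {A L : Type}

theorem Des_trans {i j k : Ix A L} (h : j ∈ Des i) (h' : k ∈ Des j) : k ∈ Des i :=
  Relation.TransGen.trans h' h

theorem Des_irrefl (i : Ix A L) : i ∉ Des i := fun h => wf_Des.asymmetric _ _ h h

theorem ch_mem_Des (fl : L → A → A → Prop) (ln : L → A → A → A) (st : L → A → A → A → Prop)
    (dm : L → A → A → A → Prop) (ch : (l : L) → (b e : A) → {y : A // dm l b e y} → Ix A L)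
    (sS : L → A → A → A → A → Prop)
    (sK : L → A → A → A → L → Prop) (l : L) (b e : A) (y : {y : A // dm l b e y}) :
    ch l b e y ∈ Des (Ix.mk fl ln st dm ch sS sK) :=
  Relation.TransGen.single ⟨l, b, e, y, rfl⟩

/-- the indices used in an entry of `i` are descendants of `i` -/
theorem ent_S_mem {i : Ix A L} {l : L} {b e : A} {z : Ix A L × A} (h : z ∈ (i.ent l b e).S) :
    z.1 ∈ Des i := by
  cases i with
  | mk fl ln st dm ch sS sK =>
    obtain ⟨y, hy, -⟩ := h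
    rw [hy]
    exact ch_mem_Des ..

theorem ent_K_mem {i : Ix A L} {l : L} {b e : A} {z : Ix A L × L} (h : z ∈ (i.ent l b e).K) :
    z.1 ∈ Des i := by
  cases i with
  | mk fl ln st dm ch sS sK =>
    obtain ⟨y, hy, -⟩ := h
    rw [hy]
    exact ch_mem_Des ..

set_option linter.unusedSectionVars false

variable [LinearOrder A]

theorem fin_diff_trans {p q r : RC A L} (h : p.len ≤ q.len)
    (h1 : {a | a < q.len ∧ ¬ (a ∈ r.x ↔ a ∈ q.x)}.Finite)
    (h2 : {a | a < p.len ∧ ¬ (a ∈ q.x ↔ a ∈ p.x)}.Finite) :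
    {a | a < p.len ∧ ¬ (a ∈ r.x ↔ a ∈ p.x)}.Finite := by
  refine (h1.union h2).subset ?_
  rintro a ⟨ha1, ha2⟩
  by_cases h3 : a ∈ r.x ↔ a ∈ q.x
  · exact Or.inr ⟨ha1, fun h4 => ha2 (h3.trans h4)⟩
  · exact Or.inl ⟨ha1.trans_le h, h3⟩

/-- `r` and `q` agree on the indices in `D`, up to more promises in `r` -/
theorem LeD.of_agree {D : Set (Ix A L)} {r q : RC A L} (h1 : q.len ≤ r.len)
    (h2 : {a | a < q.len ∧ ¬ (a ∈ r.x ↔ a ∈ q.x)}.Finite)
    (h3 : ∀ j ∈ D, ∀ b, (j, b) ∈ r.S ↔ (j, b) ∈ q.S)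
    (h4 : ∀ j ∈ D, ∀ l, (j, l) ∈ q.K → (j, l) ∈ r.K) : LeD D r q :=
  ⟨h1, h2, fun j hj => ⟨fun b hb => (h3 j hj b).2 hb, h4 j hj,
    fun b hb hb' => absurd ((h3 j hj b).1 hb) hb'⟩⟩

theorem fin_diff_refl (p : RC A L) : {a | a < p.len ∧ ¬ (a ∈ p.x ↔ a ∈ p.x)}.Finite := by
  convert Set.finite_empty (α := A)
  ext a
  simp

theorem LeD.refl (D : Set (Ix A L)) (p : RC A L) : LeD D p p :=
  LeD.of_agree le_rfl (fin_diff_refl p) (fun _ _ _ => Iff.rfl) (fun _ _ _ h => h)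

theorem LeD.anti {D D' : Set (Ix A L)} (h : D' ⊆ D) {r p : RC A L} (hp : LeD D r p) :
    LeD D' r p :=
  ⟨hp.1, hp.2.1, fun j hj => hp.2.2 j (h hj)⟩

theorem Frc.mono {i : Ix A L} : ∀ {r q : RC A L} {l : L} {b : A}, LeD (Des i) r q →
    Frc i q l b → Frc i r l b := by
  induction i using wf_Des.induction with
  | _ i ih =>
    intro r q l b hrq hq
    rw [Frc_iff] at hq ⊢
    intro t ht htr
    refine hq t ht ⟨hrq.1.trans htr.1, fin_diff_trans hrq.1 htr.2.1 hrq.2.1, fun j hj => ?_⟩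
    have h1 := hrq.2.2 j hj
    have h2 := htr.2.2 j hj
    refine ⟨fun b hb => h2.1 b (h1.1 b hb), fun l hl => h2.2.1 l (h1.2.1 l hl), ?_⟩
    intro b hb hb' l hl
    by_cases hbr : (j, b) ∈ r.S
    · have h3 : Frc j r l b := h1.2.2 b hbr hb' l hl
      exact ih j hj (htr.anti fun k hk => Des_trans hj hk) h3
    · exact h2.2.2 b hb hbr l (h1.2.1 l hl)

theorem LeD.trans {D : Set (Ix A L)} (hD : ∀ i ∈ D, Des i ⊆ D) {r q p : RC A L}
    (hrq : LeD D r q) (hqp : LeD D q p) : LeD D r p := by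
  refine ⟨hqp.1.trans hrq.1, fin_diff_trans hqp.1 hrq.2.1 hqp.2.1, fun j hj => ?_⟩
  have h1 := hqp.2.2 j hj
  have h2 := hrq.2.2 j hj
  refine ⟨fun b hb => h2.1 b (h1.1 b hb), fun l hl => h2.2.1 l (h1.2.1 l hl), ?_⟩
  intro b hb hb' l hl
  by_cases hbr : (j, b) ∈ q.S
  · have h3 : Frc j q l b := h1.2.2 b hbr hb' l hl
    exact h3.mono (hrq.anti (hD j hj))
  · exact h2.2.2 b hb hbr l (h1.2.1 l hl)

theorem LeD.trans_Des {i : Ix A L} {r q p : RC A L}
    (hrq : LeD (Des i) r q) (hqp : LeD (Des i) q p) : LeD (Des i) r p :=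
  LeD.trans (fun _ hj _ hk => Des_trans hj hk) hrq hqp

theorem LeC.trans {r q p : RC A L} (hrq : LeC r q) (hqp : LeC q p) : LeC r p :=
  LeD.trans (fun _ _ _ _ => trivial) hrq hqp

theorem LeC.refl (p : RC A L) : LeC p p := LeD.refl _ _

theorem LeF.leC {r q : RC A L} (h : LeF r q) : LeC r q := h.2

theorem LeF.refl (p : RC A L) : LeF p p := ⟨fun _ _ => Iff.rfl, LeD.refl _ _⟩

theorem LeF.trans {r q p : RC A L} (hrq : LeF r q) (hqp : LeF q p) : LeF r p :=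
  ⟨fun a ha => (hrq.1 a (ha.trans_le hqp.2.1)).trans (hqp.1 a ha), LeC.trans hrq.2 hqp.2⟩

theorem Frc.monoC {i : Ix A L} {r q : RC A L} {l : L} {b : A} (h : LeC r q)
    (hq : Frc i q l b) : Frc i r l b := hq.mono (LeD.anti (subset_univ _) h)

theorem Frc.dense {i : Ix A L} {r : RC A L} {l : L} {b : A}
    (h : ∀ t, Sm t → LeD (Des i) t r → ∃ t', Sm t' ∧ LeD (Des i) t' t ∧ Frc i t' l b) :
    Frc i r l b := by
  rw [Frc_iff]
  intro t ht htr
  obtain ⟨t', h1, h2, h3⟩ := h t ht htr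
  rw [Frc_iff] at h3
  obtain ⟨t'', h4, h5, e, h6, h7⟩ := h3 t' h1 (LeD.refl _ _)
  exact ⟨t'', h4, h5.trans_Des h2, e, h6, h7⟩

/-- `r` on the indices in `D`, `p` elsewhere -/
def mix (D : Set (Ix A L)) (r p : RC A L) : RC A L where
  len := r.len
  x := r.x
  S := {z | (z.1 ∈ D ∧ z ∈ r.S) ∨ (z.1 ∉ D ∧ z ∈ p.S)}
  K := {z | (z.1 ∈ D ∧ z ∈ r.K) ∨ (z.1 ∉ D ∧ z ∈ p.K)}

theorem mem_mix_S {D : Set (Ix A L)} {r p : RC A L} {j : Ix A L} {b : A} (hj : j ∈ D) :
    (j, b) ∈ (mix D r p).S ↔ (j, b) ∈ r.S := by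
  simp [mix, hj]

theorem mem_mix_K {D : Set (Ix A L)} {r p : RC A L} {j : Ix A L} {l : L} (hj : j ∈ D) :
    (j, l) ∈ (mix D r p).K ↔ (j, l) ∈ r.K := by
  simp [mix, hj]

theorem notMem_mix_S {D : Set (Ix A L)} {r p : RC A L} {j : Ix A L} {b : A} (hj : j ∉ D) :
    (j, b) ∈ (mix D r p).S ↔ (j, b) ∈ p.S := by
  simp [mix, hj]

theorem notMem_mix_K {D : Set (Ix A L)} {r p : RC A L} {j : Ix A L} {l : L} (hj : j ∉ D) :
    (j, l) ∈ (mix D r p).K ↔ (j, l) ∈ p.K := by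
  simp [mix, hj]

theorem mix_leD {D : Set (Ix A L)} {r p : RC A L} : LeD D (mix D r p) r :=
  LeD.of_agree le_rfl (fin_diff_refl r) (fun _ hj _ => mem_mix_S hj)
    (fun _ hj _ h => (mem_mix_K hj).2 h)

theorem leD_mix {D : Set (Ix A L)} {r p : RC A L} : LeD D r (mix D r p) :=
  LeD.of_agree le_rfl (fin_diff_refl r) (fun _ hj _ => (mem_mix_S hj).symm)
    (fun _ hj _ h => (mem_mix_K hj).1 h)

theorem mix_leC {D : Set (Ix A L)} (hD : ∀ i ∈ D, Des i ⊆ D) {r p : RC A L} (h : LeD D r p) :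
    LeC (mix D r p) p := by
  refine ⟨h.1, h.2.1, fun j _ => ?_⟩
  by_cases hj : j ∈ D
  · have h1 := h.2.2 j hj
    refine ⟨fun b hb => (mem_mix_S hj).2 (h1.1 b hb), fun l hl => (mem_mix_K hj).2 (h1.2.1 l hl),
      fun b hb hb' l hl => ?_⟩
    have h2 : Frc j r l b := h1.2.2 b ((mem_mix_S hj).1 hb) hb' l hl
    exact h2.mono (mix_leD.anti (hD j hj))
  · exact ⟨fun b hb => (notMem_mix_S hj).2 hb, fun l hl => (notMem_mix_K hj).2 hl,
      fun b hb hb' => absurd ((notMem_mix_S hj).1 hb) hb'⟩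

theorem Sm_mix {D : Set (Ix A L)} {r p : RC A L} (hA : ℵ₀ ≤ #A) (hr : Sm r) (hp : Sm p) :
    Sm (mix D r p) := by
  constructor
  · refine lt_of_le_of_lt ?_ (add_lt_of_lt hA hr.1 hp.1)
    refine le_trans (mk_le_mk_of_subset (t := r.S ∪ p.S) ?_) (mk_union_le _ _)
    rintro z (⟨-, hz⟩ | ⟨-, hz⟩)
    · exact Or.inl hz
    · exact Or.inr hz
  · refine lt_of_le_of_lt ?_ (add_lt_of_lt hA hr.2 hp.2)
    refine le_trans (mk_le_mk_of_subset (t := r.K ∪ p.K) ?_) (mk_union_le _ _)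
    rintro z (⟨-, hz⟩ | ⟨-, hz⟩)
    · exact Or.inl hz
    · exact Or.inr hz

/-- The forcing of `b ∈ a_l` computed in the whole poset. -/
theorem Frc_iff_C {i : Ix A L} {r : RC A L} {l : L} {b : A} (hA : ℵ₀ ≤ #A) (hr : Sm r) :
    Frc i r l b ↔ ∀ t, Sm t → LeC t r → ∃ t', Sm t' ∧ LeC t' t ∧
      ∃ e, i.fl l b e ∧ LeC t' (i.ent l b e) := by
  have hD : ∀ j ∈ Des i, Des j ⊆ Des i := fun j hj k hk => Des_trans hj hk
  constructor
  · intro h t ht htr
    rw [Frc_iff] at h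
    obtain ⟨t', h1, h2, e, h3, h4⟩ := h t ht (LeD.anti (subset_univ _) htr)
    refine ⟨mix (Des i) t' t, Sm_mix hA h1 ht, mix_leC hD h2, e, h3, ?_⟩
    refine ⟨h4.1, h4.2.1, fun j _ => ?_⟩
    by_cases hj : j ∈ Des i
    · have h5 := h4.2.2 j hj
      refine ⟨fun b hb => (mem_mix_S hj).2 (h5.1 b hb),
        fun l hl => (mem_mix_K hj).2 (h5.2.1 l hl), fun b hb hb' l hl => ?_⟩
      have h6 : Frc j t' l b := h5.2.2 b ((mem_mix_S hj).1 hb) hb' l hl
      exact h6.mono (mix_leD.anti (hD j hj))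
    · exact ⟨fun b hb => absurd (ent_S_mem hb) hj, fun l hl => absurd (ent_K_mem hl) hj,
        fun b _ _ l hl => absurd (ent_K_mem hl) hj⟩
  · intro h
    rw [Frc_iff]
    intro t ht htr
    obtain ⟨t', h1, h2, e, h3, h4⟩ := h (mix (Des i) t r) (Sm_mix hA ht hr) (mix_leC hD htr)
    exact ⟨t', h1, (LeD.anti (subset_univ _) h2).trans_Des mix_leD, e, h3,
      LeD.anti (subset_univ _) h4⟩

/-- The set `A × ...` of small conditions with the coarse order. -/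
def PC (A L : Type) : Type := {p : RC A L // Sm p}

/-- The set of small conditions with the fine order. -/
def PF (A L : Type) : Type := {p : RC A L // Sm p}

instance : Preorder (PC A L) where
  le r p := LeC r.1 p.1
  le_refl p := LeC.refl p.1
  le_trans _ _ _ h h' := LeC.trans h h'

instance : Preorder (PF A L) where
  le r p := LeF r.1 p.1
  le_refl p := LeF.refl p.1
  le_trans _ _ _ h h' := LeF.trans h h'

theorem PC.le_def {r p : PC A L} : r ≤ p ↔ LeC r.1 p.1 := Iff.rfl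

theorem PF.le_def {r p : PF A L} : r ≤ p ↔ LeF r.1 p.1 := Iff.rfl

/-- change of the first coordinate of `r` below `p.len` to that of `p` -/
def lift (r p : RC A L) : RC A L where
  len := r.len
  x := {a | (a < p.len ∧ a ∈ p.x) ∨ (p.len ≤ a ∧ a ∈ r.x)}
  S := r.S
  K := r.K

theorem fin_diff_lift {r p : RC A L} (h : {a | a < p.len ∧ ¬ (a ∈ r.x ↔ a ∈ p.x)}.Finite) :
    {a | ¬ (a ∈ (lift r p).x ↔ a ∈ r.x)}.Finite := by
  refine h.subset ?_
  intro a ha
  rcases lt_or_ge a p.len with h1 | h1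
  · refine ⟨h1, fun h2 => ha ?_⟩
    simp [lift, h1, h2, not_le.2 h1]
  · exact absurd (by simp [lift, h1, not_lt.2 h1]) ha

/-- **Lifting** of a coarse extension to a fine one. -/
theorem lift_leF {r p : RC A L} (h : LeC r p) : LeF (lift r p) p := by
  refine ⟨fun a ha => by simp [lift, ha, not_le.2 ha], h.1, ?_, fun j _ => ?_⟩
  · convert Set.finite_empty (α := A)
    ext a
    simp only [mem_ofPred_eq, mem_empty_iff_false, iff_false, not_and, not_not]
    intro ha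
    simp [lift, ha, not_le.2 ha]
  · have h1 := h.2.2 j trivial
    refine ⟨h1.1, h1.2.1, fun b hb hb' l hl => ?_⟩
    have h2 : Frc j r l b := h1.2.2 b hb hb' l hl
    have h3 : LeD (Des j) (lift r p) r :=
      LeD.of_agree le_rfl ((fin_diff_lift h.2.1).subset fun _ ha => ha.2) (fun _ _ _ => Iff.rfl)
        (fun _ _ _ h => h)
    exact h2.mono h3

theorem lift_leC {r p : RC A L} (h : LeC r p) : LeC (lift r p) r :=
  LeD.of_agree le_rfl ((fin_diff_lift h.2.1).subset fun _ ha => ha.2) (fun _ _ _ => Iff.rfl)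
    (fun _ _ _ h => h)

theorem leC_lift {r p : RC A L} (h : LeC r p) : LeC r (lift r p) :=
  LeD.of_agree le_rfl ((fin_diff_lift h.2.1).subset fun _ ha h2 => ha.2 h2.symm)
    (fun _ _ _ => Iff.rfl) (fun _ _ _ h => h)

theorem Sm_lift {r p : RC A L} (h : Sm r) : Sm (lift r p) := h

end Pool.Agent.Helper3.SP
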